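import Pool.Agent.H685R3.HDefs

set_option autoImplicit false

namespace Pool.Agent.Y588.TC

open Encodable
open Nat.Partrec (Code)
open Pool.Agent.H685R3

/-- The number of ones at the end (the side of the lowest digits) of the binary expansion. -/
def ones (n : ℕ) : ℕ := if n % 2 = 1 then ones (n / 2) + 1 else 0
termination_by n
decreasing_by omega

/-- The first `n` bits of the adaptive jump. -/
noncomputable def answers (u : ℕ → Bool) : ℕ → List Bool
  | 0 => []
  | n + 1 => answers u n ++ [open Classical in decide (∃ k, ((Denumerable.ofNat Code (ones n)).eval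
      (encode (n, answers u n, hist u k))).Dom)]

open Classical in
/-- The adaptive jump of `u`: the bit at `n` is one iff for some `k` the program with index
`ones n` halts on the input consisting of `n`, the earlier bits and the first `k` bits of `u`. -/
noncomputable def adaptiveJump (u : ℕ → Bool) (n : ℕ) : Bool :=
  decide (∃ k, ((Denumerable.ofNat Code (ones n)).eval
    (encode (n, answers u n, hist u k))).Dom)

/-- The permutation `4 m ↦ 4 m + 2 ↦ 4 m + 1 ↦ 4 m + 3 ↦ 4 m`, for all `m`, of order four. -/
def quarter (n : ℕ) : ℕ :=
  if n % 4 = 0 then n + 2 else if n % 4 = 2 then n - 1 else if n % 4 = 1 then n + 2 else n - 3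

/-- The permutation `4 m ↦ 4 m + 2 ↦ 2 m + 1 ↦ 4 m`, for all `m`, of order three. -/
def third (n : ℕ) : ℕ :=
  if n % 4 = 0 then n + 2 else if n % 4 = 2 then n / 2 else 2 * (n - 1)

/-- `A` is closed under rearranging the positions by `quarter` and `third`, which generate a copy
of Thompson's circle group, and by their inverses. -/
def CircleInvariant (A : Set (ℕ → Bool)) : Prop :=
  ∀ x, (x ∘ quarter ∈ A ↔ x ∈ A) ∧ (x ∘ third ∈ A ↔ x ∈ A)

end Pool.Agent.Y588.TC
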