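import Pool.Agent.Y588.TC.Sec

set_option autoImplicit false

namespace Pool.Agent.Y588.TC

open Encodable
open Nat.Partrec (Code)
open Pool.Agent.Helper227 Pool.Agent.H685R3

/-- `τ` extends the string and forces the program to halt. -/
def Fo (B : ℕ → Bool) (x : (ℕ × List Bool) × List Bool) (τ : List Bool) : Prop :=
  τ.take x.2.length = x.2 ∧ ∃ ρ : List Bool, (ρ.length ≤ 2 * τ.length ∧ Run x.1.1 x.1.2 ρ) ∧
    ∀ i < ρ.length, (i % 2 = 0 ∧ B (i / 2) = ρ.getD i false) ∨
      (¬ i % 2 = 0 ∧ τ.getD (i / 2) false = ρ.getD i false)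

theorem us_Fo : US fun B (x : ((ℕ × List Bool) × List Bool) × List Bool) => Fo B x.1 x.2 := by
  refine US.and (US.of_prim ?_) (US.ex (p := fun B (x : ((ℕ × List Bool) × List Bool) × List Bool)
    (ρ : List Bool) => (ρ.length ≤ 2 * x.2.length ∧ Run x.1.1.1 x.1.1.2 ρ) ∧
    ∀ i < ρ.length, (i % 2 = 0 ∧ B (i / 2) = ρ.getD i false) ∨
      (¬ i % 2 = 0 ∧ x.2.getD (i / 2) false = ρ.getD i false))
      (US.and (US.and (US.of_prim ?_) (US.of_s1 ?_)) ?_))
  · exact Primrec.eq.comp (Primrec.list_take.comp (Primrec.list_length.comp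
      (Primrec.snd.comp Primrec.fst)) Primrec.snd) (Primrec.snd.comp Primrec.fst)
  · exact Primrec.nat_le.comp (Primrec.list_length.comp Primrec.snd)
      (Primrec.nat_mul.comp (Primrec.const 2) (Primrec.list_length.comp
        (Primrec.snd.comp Primrec.fst)))
  · exact s1_Run.comp (f := fun y : (((ℕ × List Bool) × List Bool) × List Bool) × List Bool =>
      (y.1.1.1, y.2)) ((Primrec.fst.comp (Primrec.fst.comp Primrec.fst)).pair Primrec.snd)
  · refine US.all_lt (α := (((ℕ × List Bool) × List Bool) × List Bool) × List Bool)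
      (p := fun B x i => (i % 2 = 0 ∧ B (i / 2) = x.2.getD i false) ∨
      (¬ i % 2 = 0 ∧ x.1.2.getD (i / 2) false = x.2.getD i false))
      (f := fun x => x.2.length) ?_ (Primrec.list_length.comp Primrec.snd)
    have hm : PrimrecPred fun y : ((((ℕ × List Bool) × List Bool) × List Bool) × List Bool) × ℕ =>
        y.2 % 2 = 0 :=
      Primrec.eq.comp (Primrec.nat_mod.comp Primrec.snd (Primrec.const 2)) (Primrec.const 0)
    refine US.or (US.and (US.of_prim hm) ?_) (US.of_prim (PrimrecPred.and hm.not ?_))
    · exact US.query.comp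
        (f := fun y : ((((ℕ × List Bool) × List Bool) × List Bool) × List Bool) × ℕ =>
        (y.2 / 2, y.1.2.getD y.2 false))
        ((Primrec.nat_div.comp Primrec.snd (Primrec.const 2)).pair
          ((Primrec.list_getD false).comp (Primrec.snd.comp Primrec.fst) Primrec.snd))
    · exact Primrec.eq.comp ((Primrec.list_getD false).comp
        (Primrec.snd.comp (Primrec.fst.comp Primrec.fst))
        (Primrec.nat_div.comp Primrec.snd (Primrec.const 2)))
        ((Primrec.list_getD false).comp (Primrec.snd.comp Primrec.fst) Primrec.snd)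

theorem exists_GG : ∃ G : (ℕ → Bool) → (ℕ × List Bool) × List Bool → List Bool → Prop,
    (US fun B (x : ((ℕ × List Bool) × List Bool) × List Bool) => G B x.1 x.2) ∧
      (∀ B a b, G B a b → Fo B a b) ∧ (∀ B a b b', G B a b → G B a b' → b = b') ∧
      ∀ B a, (∃ b, Fo B a b) → ∃ b, G B a b := US.choose us_Fo

/-- A fixed uniformization of the forcing relation. -/
noncomputable def GG : (ℕ → Bool) → (ℕ × List Bool) × List Bool → List Bool → Prop :=
  exists_GG.choose

theorem us_GG : US fun B (x : ((ℕ × List Bool) × List Bool) × List Bool) => GG B x.1 x.2 :=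
  exists_GG.choose_spec.1

theorem GG_fo {B : ℕ → Bool} {a : (ℕ × List Bool) × List Bool} {b : List Bool}
    (h : GG B a b) : Fo B a b := exists_GG.choose_spec.2.1 _ _ _ h

theorem GG_unique {B : ℕ → Bool} {a : (ℕ × List Bool) × List Bool} {b b' : List Bool}
    (h : GG B a b) (h' : GG B a b') : b = b' := exists_GG.choose_spec.2.2.1 _ _ _ _ h h'

theorem GG_exists {B : ℕ → Bool} {a : (ℕ × List Bool) × List Bool} (h : ∃ b, Fo B a b) :
    ∃ b, GG B a b := exists_GG.choose_spec.2.2.2 _ _ h

/-- The string before the coding bit is appended. -/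
def Mi (B : ℕ → Bool) (x : ((ℕ × List Bool) × List Bool) × Bool) (τ : List Bool) : Prop :=
  (x.2 = true ∧ GG B x.1 τ) ∨ (x.2 = false ∧ τ = x.1.2)

theorem Mi.unique {B : ℕ → Bool} {a : ((ℕ × List Bool) × List Bool) × Bool} {b b' : List Bool}
    (h : Mi B a b) (h' : Mi B a b') : b = b' := by
  rcases h with ⟨h1, h2⟩ | ⟨h1, h2⟩ <;> rcases h' with ⟨h3, h4⟩ | ⟨h3, h4⟩
  · exact GG_unique h2 h4
  · rw [h1] at h3; cases h3
  · rw [h1] at h3; cases h3
  · rw [h2, h4]

theorem us_Mi : US fun B (x : (((ℕ × List Bool) × List Bool) × Bool) × List Bool) =>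
    Mi B x.1 x.2 := by
  refine US.or (US.and (US.of_prim ?_) ?_) (US.of_prim (PrimrecPred.and ?_ ?_))
  · exact Primrec.eq.comp (Primrec.snd.comp Primrec.fst) (Primrec.const true)
  · exact us_GG.comp (f := fun x : (((ℕ × List Bool) × List Bool) × Bool) × List Bool =>
      (x.1.1, x.2)) ((Primrec.fst.comp Primrec.fst).pair Primrec.snd)
  · exact Primrec.eq.comp (Primrec.snd.comp Primrec.fst) (Primrec.const false)
  · exact Primrec.eq.comp Primrec.snd (Primrec.snd.comp (Primrec.fst.comp Primrec.fst))

open Classical in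
/-- Whether the next program can be forced to halt. -/
noncomputable def CF (z : ℕ → Bool) (x : (ℕ × List Bool) × List Bool) : Bool :=
  decide (∃ τ, Fo z x τ)

open Classical in
/-- The string before the coding bit. -/
noncomputable def mi (z : ℕ → Bool) (x : (ℕ × List Bool) × List Bool) (c : Bool) : List Bool :=
  if h : ∃ τ, Mi z (x, c) τ then h.choose else x.2

theorem mi_spec (z : ℕ → Bool) (x : (ℕ × List Bool) × List Bool) :
    Mi z (x, CF z x) (mi z x (CF z x)) := by
  have h : ∃ τ, Mi z (x, CF z x) τ := by
    cases hc : CF z x with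
    | false => exact ⟨_, Or.inr ⟨rfl, rfl⟩⟩
    | true =>
      have h1 : ∃ τ, Fo z x τ := by simpa [CF] using hc
      obtain ⟨τ, h2⟩ := GG_exists h1
      exact ⟨τ, Or.inl ⟨rfl, h2⟩⟩
  rw [mi, dif_pos h]
  exact h.choose_spec

/-- The construction above `z` coding `b`: the earlier answers and the current string. -/
noncomputable def PS (z b : ℕ → Bool) : ℕ → (List Bool × List Bool)
  | 0 => ([], [])
  | e + 1 => ((PS z b e).1 ++ [CF z ((e, (PS z b e).1), (PS z b e).2)],
      mi z ((e, (PS z b e).1), (PS z b e).2) (CF z ((e, (PS z b e).1), (PS z b e).2)) ++ [b e])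

/-- The adaptive jump of the real built above `z` coding `b`. -/
noncomputable def An (z b : ℕ → Bool) (e : ℕ) : Bool :=
  CF z ((e, (PS z b e).1), (PS z b e).2)

theorem PS_congr {z b b' : ℕ → Bool} (e : ℕ) (h : ∀ i < e, b i = b' i) :
    PS z b e = PS z b' e := by
  induction e with
  | zero => rfl
  | succ e ih =>
    have h1 := ih fun i hi => h i (by omega)
    rw [PS, PS, h1, h e (by omega)]

theorem An_congr {z b b' : ℕ → Bool} {e : ℕ} (h : ∀ i < e, b i = b' i) :
    An z b e = An z b' e := by
  rw [An, An, PS_congr e h]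

section

variable (z b : ℕ → Bool)

theorem PS_fst (e : ℕ) : (PS z b e).1 = pre (An z b) e := by
  induction e with
  | zero => rfl
  | succ e ih =>
    rw [pre_succ, ← ih]
    rfl

/-- The strings of the construction. -/
noncomputable def Vs (e : ℕ) : List Bool := (PS z b e).2

/-- The strings before the coding bits. -/
noncomputable def Md (e : ℕ) : List Bool :=
  mi z ((e, (PS z b e).1), (PS z b e).2) (CF z ((e, (PS z b e).1), (PS z b e).2))

theorem Vs_succ (e : ℕ) : Vs z b (e + 1) = Md z b e ++ [b e] := rfl

theorem md_ok (e : ℕ) : Mi z (((e, pre (An z b) e), Vs z b e), An z b e) (Md z b e) := by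
  rw [← PS_fst]
  exact mi_spec z _

theorem an_iff (e : ℕ) : An z b e = true ↔ ∃ τ, Fo z ((e, pre (An z b) e), Vs z b e) τ := by
  rw [← PS_fst]
  simp [An, CF, Vs]

theorem prefix_md (e : ℕ) : Vs z b e <+: Md z b e := by
  rcases md_ok z b e with ⟨_, h⟩ | ⟨_, h⟩
  · have h1 := (GG_fo h).1
    simp only at h1
    rw [List.prefix_iff_eq_take, h1]
  · simp only at h
    rw [h]

theorem prefix_vs_succ (e : ℕ) : Vs z b e <+: Vs z b (e + 1) :=
  (prefix_md z b e).trans (List.prefix_append _ _)

theorem prefix_vs {e e' : ℕ} (h : e ≤ e') : Vs z b e <+: Vs z b e' := by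
  induction h with
  | refl => exact List.prefix_rfl
  | step _ ih => exact ih.trans (prefix_vs_succ z b _)

theorem length_Vs (e : ℕ) : e ≤ (Vs z b e).length := by
  induction e with
  | zero => simp
  | succ e ih =>
    have := (prefix_md z b e).length_le
    rw [Vs_succ]
    simp only [List.length_append, List.length_singleton]
    omega

/-- The limit of the strings. -/
noncomputable def li (i : ℕ) : Bool := (Vs z b (i + 1)).getD i false

theorem li_eq {e i : ℕ} (hi : i < (Vs z b e).length) : li z b i = (Vs z b e).getD i false := by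
  have h1 : i < (Vs z b (i + 1)).length := length_Vs z b (i + 1)
  rcases le_total e (i + 1) with h | h
  · exact getD_of_prefix (prefix_vs z b h) hi
  · exact (getD_of_prefix (prefix_vs z b h) h1).symm

theorem pre_li (e : ℕ) : pre (li z b) (Vs z b e).length = Vs z b e := by
  refine List.ext_getElem (by simp) fun i h1 h2 => ?_
  rw [getElem_pre, li_eq z b h2]
  simp [h2]

theorem li_md {e i : ℕ} (hi : i < (Md z b e).length) : li z b i = (Md z b e).getD i false := by
  have h1 : i < (Vs z b (e + 1)).length := by
    rw [Vs_succ]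
    simp only [List.length_append, List.length_singleton]
    omega
  rw [li_eq z b h1]
  exact getD_of_prefix (List.prefix_append _ _) hi

theorem li_code (e : ℕ) : li z b (Md z b e).length = b e := by
  have h1 : (Md z b e).length < (Vs z b (e + 1)).length := by
    rw [Vs_succ]
    simp only [List.length_append, List.length_singleton]
    omega
  rw [li_eq z b h1]
  simp [Vs_succ, List.getD]

/-- The real built above `z` coding `b`. -/
noncomputable def iv : ℕ → Bool := join z (li z b)

theorem iv_even (n : ℕ) : iv z b (2 * n) = z n := jE _ _ n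

theorem iv_odd (n : ℕ) : iv z b (2 * n + 1) = li z b n := jO _ _ n

theorem aj_iv : adaptiveJump (iv z b) = An z b := by
  funext e
  induction e using Nat.strong_induction_on with
  | _ e ih =>
  have hpre : pre (adaptiveJump (iv z b)) e = pre (An z b) e :=
    List.map_congr_left fun i hi => ih i (List.mem_range.1 hi)
  have key : adaptiveJump (iv z b) e = true ↔ An z b e = true := by
    rw [aj_iff, hpre]
    constructor
    · rintro ⟨k, hk⟩
      rw [an_iff]
      refine ⟨pre (li z b) (max (Vs z b e).length k), ?_, pre (iv z b) k, ⟨?_, hk⟩, ?_⟩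
      · simp only
        rw [take_pre _ _ _ (le_max_left _ _), pre_li]
      · simp only [length_pre]
        omega
      · intro i hi
        rw [length_pre] at hi
        rw [pre_getD _ _ _ _ hi]
        by_cases h0 : i % 2 = 0
        · refine Or.inl ⟨h0, ?_⟩
          conv_rhs => rw [show i = 2 * (i / 2) by omega]
          rw [iv_even]
        · refine Or.inr ⟨h0, ?_⟩
          rw [pre_getD _ _ _ _ (by omega)]
          conv_rhs => rw [show i = 2 * (i / 2) + 1 by omega]
          rw [iv_odd]
    · intro h
      have h1 : Fo z ((e, pre (An z b) e), Vs z b e) (Md z b e) := by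
        rcases md_ok z b e with ⟨_, h2⟩ | ⟨h2, _⟩
        · exact GG_fo h2
        · simp only at h2
          rw [h] at h2
          cases h2
      obtain ⟨_, ρ, ⟨h2, h3⟩, h4⟩ := h1
      refine ⟨ρ.length, ?_⟩
      have : pre (iv z b) ρ.length = ρ := by
        refine List.ext_getElem (by simp) fun i h5 h6 => ?_
        rw [getElem_pre]
        have h7 := h4 i h6
        rw [List.getD_eq_getElem _ _ h6] at h7
        rcases h7 with ⟨h8, h9⟩ | ⟨h8, h9⟩
        · rw [← h9]
          conv_lhs => rw [show i = 2 * (i / 2) by omega]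
          rw [iv_even]
        · rw [← h9]
          conv_lhs => rw [show i = 2 * (i / 2) + 1 by omega]
          rw [iv_odd, li_md z b (e := e)]
          omega
      rw [this]
      exact h3
  exact Bool.eq_iff_iff.2 key

theorem tLe_iv : TLe z (iv z b) := by
  have hf : Primrec fun n : ℕ => 2 * n := Primrec.nat_mul.comp (Primrec.const 2) Primrec.id
  exact tLe_of_computable hf.to_comp fun n => (iv_even z b n).symm

end

/-- The coded bit, computed from the adaptive jump. -/
def Bt (B : ℕ → Bool) (x : (ℕ × List Bool) × List Bool) : Prop :=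
  ∃ L : List (List Bool), (L.getD 0 [] = [] ∧ ∀ i < x.1.1,
    ∃ τ, Mi (fun n => B (2 * n)) (((i, x.2.take i), L.getD i []), x.2.getD i false) τ ∧
      L.getD (i + 1) [] = τ ++ [x.1.2.getD i false]) ∧
    ∃ τ, Mi (fun n => B (2 * n)) (((x.1.1, x.2.take x.1.1), L.getD x.1.1 []),
      x.2.getD x.1.1 false) τ ∧ B (2 * τ.length + 1) = true

theorem us_Bt : US Bt := by
  refine US.ex (p := fun B (x : (ℕ × List Bool) × List Bool) (L : List (List Bool)) =>
    (L.getD 0 [] = [] ∧ ∀ i < x.1.1,
    ∃ τ, Mi (fun n => B (2 * n)) (((i, x.2.take i), L.getD i []), x.2.getD i false) τ ∧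
      L.getD (i + 1) [] = τ ++ [x.1.2.getD i false]) ∧
    ∃ τ, Mi (fun n => B (2 * n)) (((x.1.1, x.2.take x.1.1), L.getD x.1.1 []),
      x.2.getD x.1.1 false) τ ∧ B (2 * τ.length + 1) = true)
    (US.and (US.and (US.of_prim ?_) ?_) ?_)
  · exact Primrec.eq.comp ((Primrec.list_getD []).comp Primrec.snd (Primrec.const 0))
      (Primrec.const [])
  · refine US.all_lt (α := ((ℕ × List Bool) × List Bool) × List (List Bool))
      (p := fun B y i => ∃ τ, Mi (fun n => B (2 * n))
        (((i, y.1.2.take i), y.2.getD i []), y.1.2.getD i false) τ ∧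
      y.2.getD (i + 1) [] = τ ++ [y.1.1.2.getD i false])
      (f := fun y => y.1.1.1) ?_ (Primrec.fst.comp (Primrec.fst.comp Primrec.fst))
    refine US.ex (α := (((ℕ × List Bool) × List Bool) × List (List Bool)) × ℕ)
      (p := fun B w τ => Mi (fun n => B (2 * n))
        (((w.2, w.1.1.2.take w.2), w.1.2.getD w.2 []), w.1.1.2.getD w.2 false) τ ∧
      w.1.2.getD (w.2 + 1) [] = τ ++ [w.1.1.1.2.getD w.2 false])
      (US.and ?_ (US.of_prim ?_))
    · refine us_Mi.even.comp
        (f := fun y : ((((ℕ × List Bool) × List Bool) × List (List Bool)) × ℕ) × List Bool =>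
        ((((y.1.2, y.1.1.1.2.take y.1.2), y.1.1.2.getD y.1.2 []), y.1.1.1.2.getD y.1.2 false),
          y.2)) ?_
      have hi : Primrec fun y :
          ((((ℕ × List Bool) × List Bool) × List (List Bool)) × ℕ) × List Bool =>
          y.1.2 := Primrec.snd.comp Primrec.fst
      have hH : Primrec fun y :
          ((((ℕ × List Bool) × List Bool) × List (List Bool)) × ℕ) × List Bool =>
          y.1.1.1.2 := Primrec.snd.comp (Primrec.fst.comp (Primrec.fst.comp Primrec.fst))
      exact Primrec.pair (Primrec.pair (Primrec.pair (Primrec.pair hi (Primrec.list_take.comp hi hH))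
        ((Primrec.list_getD []).comp (Primrec.snd.comp (Primrec.fst.comp Primrec.fst)) hi))
        ((Primrec.list_getD false).comp hH hi)) Primrec.snd
    · refine Primrec.eq.comp ((Primrec.list_getD []).comp
        (Primrec.snd.comp (Primrec.fst.comp Primrec.fst))
        (Primrec.succ.comp (Primrec.snd.comp Primrec.fst)))
        (Primrec.list_append.comp Primrec.snd (Primrec.list_cons.comp ?_ (Primrec.const [])))
      exact (Primrec.list_getD false).comp
        (Primrec.snd.comp (Primrec.fst.comp (Primrec.fst.comp (Primrec.fst.comp Primrec.fst))))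
        (Primrec.snd.comp Primrec.fst)
  · refine US.ex (α := ((ℕ × List Bool) × List Bool) × List (List Bool))
      (p := fun B y τ => Mi (fun n => B (2 * n)) (((y.1.1.1, y.1.2.take y.1.1.1),
        y.2.getD y.1.1.1 []), y.1.2.getD y.1.1.1 false) τ ∧ B (2 * τ.length + 1) = true)
      (US.and ?_ ?_)
    · refine us_Mi.even.comp
        (f := fun y : (((ℕ × List Bool) × List Bool) × List (List Bool)) × List Bool =>
        ((((y.1.1.1.1, y.1.1.2.take y.1.1.1.1), y.1.2.getD y.1.1.1.1 []),
          y.1.1.2.getD y.1.1.1.1 false), y.2)) ?_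
      have hi : Primrec fun y : (((ℕ × List Bool) × List Bool) × List (List Bool)) × List Bool =>
          y.1.1.1.1 := Primrec.fst.comp (Primrec.fst.comp (Primrec.fst.comp Primrec.fst))
      have hH : Primrec fun y : (((ℕ × List Bool) × List Bool) × List (List Bool)) × List Bool =>
          y.1.1.2 := Primrec.snd.comp (Primrec.fst.comp Primrec.fst)
      exact Primrec.pair (Primrec.pair (Primrec.pair (Primrec.pair hi (Primrec.list_take.comp hi hH))
        ((Primrec.list_getD []).comp (Primrec.snd.comp Primrec.fst) hi))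
        ((Primrec.list_getD false).comp hH hi)) Primrec.snd
    · exact US.query.comp
        (f := fun y : (((ℕ × List Bool) × List Bool) × List (List Bool)) × List Bool =>
        (2 * y.2.length + 1, true)) ((Primrec.succ.comp (Primrec.nat_mul.comp (Primrec.const 2)
          (Primrec.list_length.comp Primrec.snd))).pair (Primrec.const true))

/-- The coded bits can be computed along the adaptive jump. -/
theorem sect_iv (z b : ℕ → Bool) : Sect (iv z b) (adaptiveJump (iv z b)) b := by
  refine ⟨Bt (iv z b), us_Bt.toSI (iv z b), fun m N hN => ?_⟩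
  have hz : (fun n => iv z b (2 * n)) = z := funext fun n => iv_even z b n
  have hH : ∀ i ≤ m, (pre (adaptiveJump (iv z b)) N).getD i false = An z b i :=
    fun i hi => by rw [pre_getD _ _ _ _ (by omega), aj_iv]
  have hT : ∀ i ≤ m, (pre (adaptiveJump (iv z b)) N).take i = pre (An z b) i :=
    fun i hi => by rw [take_pre _ _ _ (by omega), aj_iv]
  have hB : ∀ i < m, (pre b m).getD i false = b i := fun i hi => pre_getD _ _ _ _ hi
  simp only [Bt, hz]
  constructor
  · rintro ⟨L, ⟨h0, h1⟩, τ, h2, h3⟩
    have key : ∀ i ≤ m, L.getD i [] = Vs z b i := by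
      intro i
      induction i with
      | zero => intro _; rw [h0]; rfl
      | succ i ih =>
        intro hi
        obtain ⟨τ', h4, h5⟩ := h1 i (by omega)
        rw [hH i (by omega), hT i (by omega), ih (by omega)] at h4
        rw [hB i (by omega)] at h5
        rw [h5, h4.unique (md_ok z b i)]
        rfl
    rw [hH m le_rfl, hT m le_rfl, key m le_rfl] at h2
    rw [h2.unique (md_ok z b m), iv_odd, li_code] at h3
    exact h3
  · intro h
    have hL : ∀ i ≤ m, ((List.range (m + 1)).map (Vs z b)).getD i [] = Vs z b i := by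
      intro i hi
      simp [List.getD, Nat.lt_succ_of_le hi]
    refine ⟨(List.range (m + 1)).map (Vs z b), ⟨?_, fun i hi => ?_⟩, ?_⟩
    · rw [hL 0 (by omega)]; rfl
    · rw [hH i (by omega), hT i (by omega), hL i (by omega), hL (i + 1) (by omega),
        hB i hi]
      exact ⟨_, md_ok z b i, rfl⟩
    · rw [hH m le_rfl, hT m le_rfl, hL m le_rfl]
      refine ⟨_, md_ok z b m, ?_⟩
      rw [iv_odd, li_code]
      exact h

end Pool.Agent.Y588.TC
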