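import Pool.Agent.Y588.TC.Inv

set_option autoImplicit false

namespace Pool.Agent.Y588.TC

open Encodable
open Pool.Agent.Helper227 Pool.Agent.H685R3

/-- A player who knows `z` can make the moves of the other player into the coded reals. -/
theorem wins_of_cone_aj {β : ℕ} (hβ : β < 2) {A : Set (ℕ → Bool)} (hA : InvT A)
    {z : ℕ → Bool} (h : ∀ u, TLe z u → adaptiveJump u ∈ A) : Wins β A := by
  refine ⟨fun L => An z (fun i => L.getD (2 * i + (1 - β)) false) (L.length / 2),
    fun x hx => ?_⟩
  generalize hb : (fun n => x (2 * n + (1 - β))) = b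
  have h1 : ∀ n, x (2 * n + β) = An z b n := by
    intro n
    rw [hx n, hist_eq_pre]
    simp only [length_pre]
    rw [show (2 * n + β) / 2 = n by omega]
    refine An_congr fun i hi => ?_
    rw [pre_getD _ _ _ _ (by omega), ← hb]
  have h2 := ((sect_iv z b).absorb hA).2 (h (iv z b) (tLe_iv z b))
  rw [aj_iv] at h2
  rcases (by omega : β = 0 ∨ β = 1) with rfl | rfl
  · have h4 : x = join (An z b) b := join_ext (fun m => h1 m) fun m => by rw [← hb]
    rw [h4, hA.s]
    exact h2
  · have h4 : x = join b (An z b) := join_ext (fun m => by rw [← hb]; rfl) fun m => h1 m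
    rw [h4]
    exact h2

/-- The moves of a coded strategy against the adaptive jump can be computed along it. -/
theorem sect_play {β : ℕ} (hβ : β < 2) {z u : ℕ → Bool} (hz : TLe z u) :
    Sect u (adaptiveJump u) fun n => play z (adaptiveJump u) β (2 * n + β) := by
  have hz := tLe_iff_SI.1 hz
  refine ⟨fun x => z (encode ((List.range (2 * x.1.1 + β)).map fun i => if i % 2 = β then
      x.1.2.getD (i / 2) false else x.2.getD (i / 2) false)) = true, ?_, fun m N hN => ?_⟩
  · refine hz.comp (f := fun x : (ℕ × List Bool) × List Bool =>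
      (encode ((List.range (2 * x.1.1 + β)).map fun i => if i % 2 = β then
        x.1.2.getD (i / 2) false else x.2.getD (i / 2) false), true)) ?_
    refine Primrec.pair (Primrec.encode.comp (Primrec.list_map (Primrec.list_range.comp
      (Primrec.nat_add.comp (Primrec.nat_mul.comp (Primrec.const 2)
        (Primrec.fst.comp Primrec.fst)) (Primrec.const β))) ?_)) (Primrec.const true)
    have hi : Primrec fun y : ((ℕ × List Bool) × List Bool) × ℕ => y.2 / 2 :=
      Primrec.nat_div.comp Primrec.snd (Primrec.const 2)
    refine Primrec.ite ?_ ?_ ?_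
    · exact Primrec.eq.comp (Primrec.nat_mod.comp Primrec.snd (Primrec.const 2))
        (Primrec.const β)
    · exact (Primrec.list_getD false).comp (Primrec.snd.comp (Primrec.fst.comp Primrec.fst)) hi
    · exact (Primrec.list_getD false).comp (Primrec.snd.comp Primrec.fst) hi
  · have h1 : ((List.range (2 * m + β)).map fun i => if i % 2 = β then
        (pre (fun n => play z (adaptiveJump u) β (2 * n + β)) m).getD (i / 2) false else
        (pre (adaptiveJump u) N).getD (i / 2) false) =
        pre (play z (adaptiveJump u) β) (2 * m + β) := by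
      refine List.map_congr_left fun i hi => ?_
      rw [List.mem_range] at hi
      by_cases h2 : i % 2 = β
      · rw [if_pos h2, pre_getD _ _ _ _ (by omega)]
        congr 1
        omega
      · rw [if_neg h2, pre_getD _ _ _ _ (by omega),
          ← play_other (z := z) (u := adaptiveJump u) hβ]
        congr 1
        omega
    simp only [h1]
    rw [← play_own (z := z) (u := adaptiveJump u) hβ]

theorem cone_aj_of_wins {β : ℕ} (hβ : β < 2) {A : Set (ℕ → Bool)} (hA : InvT A)
    (h : Wins β A) : ∃ z : ℕ → Bool, ∀ u, TLe z u → adaptiveJump u ∈ A := by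
  obtain ⟨s, hs⟩ := h
  refine ⟨fun n => s ((decode (α := List Bool) n).getD []), fun u hu => ?_⟩
  generalize hz : (fun n => s ((decode (α := List Bool) n).getD [])) = z at hu
  have h1 : play z (adaptiveJump u) β ∈ A := by
    refine hs _ fun n => ?_
    rw [play_own hβ, ← hz]
    simp [hist_eq_pre]
  rw [← (sect_play hβ hu).absorb hA]
  rcases (by omega : β = 0 ∨ β = 1) with rfl | rfl
  · have h4 : play z (adaptiveJump u) 0 =
        join (fun n => play z (adaptiveJump u) 0 (2 * n + 0)) (adaptiveJump u) :=
      join_ext (fun m => rfl) fun m => play_other (b := 0) (by omega) m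
    rw [← h4]
    exact h1
  · have h4 : play z (adaptiveJump u) 1 =
        join (adaptiveJump u) (fun n => play z (adaptiveJump u) 1 (2 * n + 1)) :=
      join_ext (fun m => play_other (b := 1) (by omega) m) fun m => rfl
    rw [hA.s, ← h4]
    exact h1

theorem wins_iff_aj {β : ℕ} (hβ : β < 2) {A : Set (ℕ → Bool)} (hA : InvT A) :
    Wins β {u | adaptiveJump u ∈ A} ↔ Wins β A := by
  constructor
  · intro h
    obtain ⟨z, hz⟩ := cone_of_wins hβ (turingInvariant_aj hA) h
    exact wins_of_cone_aj hβ hA hz
  · intro h
    obtain ⟨z, hz⟩ := cone_aj_of_wins hβ hA h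
    exact wins_of_cone hβ hz

theorem quarter_four (n : ℕ) : quarter (quarter (quarter (quarter n))) = n := by
  rcases Nat.even_or_odd' n with ⟨k, rfl | rfl⟩ <;>
    rcases Nat.even_or_odd' k with ⟨m, rfl | rfl⟩
  · rw [quarter_zero, quarter_two, quarter_one, quarter_three]
  · rw [quarter_two, quarter_one, quarter_three, quarter_zero]
  · rw [quarter_one, quarter_three, quarter_zero, quarter_two]
  · rw [quarter_three, quarter_zero, quarter_two, quarter_one]

theorem third_three (n : ℕ) : third (third (third n)) = n := by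
  rcases Nat.even_or_odd' n with ⟨k, rfl | rfl⟩
  · rcases Nat.even_or_odd' k with ⟨m, rfl | rfl⟩
    · rw [third_zero, third_two, third_odd]
    · rw [third_two, third_odd, third_zero]
  · rw [third_odd, third_zero, third_two]

theorem primrec_quarter : Primrec quarter := by
  have hm : Primrec fun n : ℕ => n % 4 := Primrec.nat_mod.comp Primrec.id (Primrec.const 4)
  refine Primrec.ite (Primrec.eq.comp hm (Primrec.const 0))
    (Primrec.nat_add.comp Primrec.id (Primrec.const 2))
    (Primrec.ite (Primrec.eq.comp hm (Primrec.const 2))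
      (Primrec.nat_sub.comp Primrec.id (Primrec.const 1))
      (Primrec.ite (Primrec.eq.comp hm (Primrec.const 1))
        (Primrec.nat_add.comp Primrec.id (Primrec.const 2))
        (Primrec.nat_sub.comp Primrec.id (Primrec.const 3))))

theorem primrec_third : Primrec third := by
  have hm : Primrec fun n : ℕ => n % 4 := Primrec.nat_mod.comp Primrec.id (Primrec.const 4)
  refine Primrec.ite (Primrec.eq.comp hm (Primrec.const 0))
    (Primrec.nat_add.comp Primrec.id (Primrec.const 2))
    (Primrec.ite (Primrec.eq.comp hm (Primrec.const 2))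
      (Primrec.nat_div.comp Primrec.id (Primrec.const 2))
      (Primrec.nat_mul.comp (Primrec.const 2)
        (Primrec.nat_sub.comp Primrec.id (Primrec.const 1))))

theorem mem_comp_iff {A : Set (ℕ → Bool)} (hA : TuringInvariant A) {f g : ℕ → ℕ}
    (hf : Primrec f) (hg : Primrec g) (h : ∀ n, f (g n) = n) (x : ℕ → Bool) :
    x ∘ f ∈ A ↔ x ∈ A := by
  have h1 : TLe (x ∘ f) x := tLe_of_computable hf.to_comp fun _ => rfl
  have h2 : TLe x (x ∘ f) := tLe_of_computable hg.to_comp fun n => by
    rw [Function.comp_apply, h]
  exact ⟨fun h' => hA _ _ h1 h2 h', fun h' => hA _ _ h2 h1 h'⟩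

theorem circleInvariant_of_turing {A : Set (ℕ → Bool)} (hA : TuringInvariant A) :
    CircleInvariant A := fun x =>
  ⟨mem_comp_iff hA primrec_quarter
      (primrec_quarter.comp (primrec_quarter.comp primrec_quarter)) quarter_four x,
    mem_comp_iff hA primrec_third (primrec_third.comp primrec_third) third_three x⟩

theorem main {A : Set (ℕ → Bool)} (h : CircleInvariant A) :
    (TuringInvariant {u | adaptiveJump u ∈ A} ∧
      (WinsI {u | adaptiveJump u ∈ A} ↔ WinsI A) ∧
      (WinsII {u | adaptiveJump u ∈ A} ↔ WinsII A)) ∧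
    (HypInvariant {u | adaptiveJump (hyperJump u) ∈ A} ∧
      (WinsI {u | adaptiveJump (hyperJump u) ∈ A} ↔ WinsI A) ∧
      (WinsII {u | adaptiveJump (hyperJump u) ∈ A} ↔ WinsII A)) := by
  have hA := h.invT
  have h0 : WinsI {u | adaptiveJump u ∈ A} ↔ WinsI A := wins_iff_aj (β := 0) (by omega) hA
  have h1 : WinsII {u | adaptiveJump u ∈ A} ↔ WinsII A :=
    wins_iff_aj (β := 1) (by omega) hA.compl
  refine ⟨⟨turingInvariant_aj hA, h0, h1⟩, hypInvariant (turingInvariant_aj hA), ?_, ?_⟩
  · exact (wins_hyp (β := 0) (by omega) (turingInvariant_aj hA)).trans h0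
  · exact (wins_hyp (β := 1) (by omega) (turingInvariant_aj hA.compl)).trans h1

end Pool.Agent.Y588.TC
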