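import Pool.Agent.Y588.TC.Defs
import Pool.Agent.H685R3.HMain

set_option autoImplicit false

namespace Pool.Agent.Y588.TC

open Encodable
open Pool.Agent.Helper227 Pool.Agent.H685R3

theorem jE (a b : ℕ → Bool) (m : ℕ) : join a b (2 * m) = a m := by
  simp only [join]
  rw [if_pos (by omega)]
  congr 1
  omega

theorem jO (a b : ℕ → Bool) (m : ℕ) : join a b (2 * m + 1) = b m := by
  simp only [join]
  rw [if_neg (by omega)]
  congr 1
  omega

theorem join_eta (x : ℕ → Bool) : join (fun m => x (2 * m)) (fun m => x (2 * m + 1)) = x := by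
  funext n
  rcases Nat.even_or_odd' n with ⟨k, rfl | rfl⟩
  · rw [jE]
  · rw [jO]

theorem join_ext {x a b : ℕ → Bool} (h : ∀ m, x (2 * m) = a m) (h' : ∀ m, x (2 * m + 1) = b m) :
    x = join a b := by
  funext n
  rcases Nat.even_or_odd' n with ⟨k, rfl | rfl⟩
  · rw [jE, h]
  · rw [jO, h']

theorem quarter_zero (m : ℕ) : quarter (2 * (2 * m)) = 2 * (2 * m + 1) := by
  simp only [quarter]
  split_ifs <;> omega

theorem quarter_two (m : ℕ) : quarter (2 * (2 * m + 1)) = 2 * (2 * m) + 1 := by
  simp only [quarter]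
  split_ifs <;> omega

theorem quarter_one (m : ℕ) : quarter (2 * (2 * m) + 1) = 2 * (2 * m + 1) + 1 := by
  simp only [quarter]
  split_ifs <;> omega

theorem quarter_three (m : ℕ) : quarter (2 * (2 * m + 1) + 1) = 2 * (2 * m) := by
  simp only [quarter]
  split_ifs <;> omega

theorem third_zero (m : ℕ) : third (2 * (2 * m)) = 2 * (2 * m + 1) := by
  simp only [third]
  split_ifs <;> omega

theorem third_two (m : ℕ) : third (2 * (2 * m + 1)) = 2 * m + 1 := by
  simp only [third]
  split_ifs <;> omega

theorem third_odd (m : ℕ) : third (2 * m + 1) = 2 * (2 * m) := by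
  simp only [third]
  split_ifs <;> omega

theorem join_quarter (a b c d : ℕ → Bool) :
    join (join a b) (join c d) ∘ quarter = join (join b c) (join d a) := by
  refine join_ext (fun n => ?_) fun n => ?_
  · rcases Nat.even_or_odd' n with ⟨k, rfl | rfl⟩
    · rw [Function.comp_apply, quarter_zero, jE, jE, jO]
    · rw [Function.comp_apply, quarter_two, jO, jE, jO]
  · rcases Nat.even_or_odd' n with ⟨k, rfl | rfl⟩
    · rw [Function.comp_apply, quarter_one, jO, jE, jO]
    · rw [Function.comp_apply, quarter_three, jE, jE, jO]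

theorem join_third (a b y : ℕ → Bool) :
    join (join a b) y ∘ third = join (join b y) a := by
  refine join_ext (fun n => ?_) fun n => ?_
  · rcases Nat.even_or_odd' n with ⟨k, rfl | rfl⟩
    · rw [Function.comp_apply, third_zero, jE, jE, jO]
    · rw [Function.comp_apply, third_two, jO, jO]
  · rw [Function.comp_apply, third_odd, jE, jE]

/-- The closure properties of Thompson's interval group, in terms of joins. -/
structure InvF (A : Set (ℕ → Bool)) : Prop where
  r : ∀ a b c, join (join a b) c ∈ A ↔ join a (join b c) ∈ A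
  r0 : ∀ a b c d, join (join (join a b) c) d ∈ A ↔ join (join a (join b c)) d ∈ A

/-- The closure properties of Thompson's circle group, in terms of joins. -/
structure InvT (A : Set (ℕ → Bool)) : Prop extends InvF A where
  s : ∀ a b, join a b ∈ A ↔ join b a ∈ A

theorem CircleInvariant.invT {A : Set (ℕ → Bool)} (h : CircleInvariant A) : InvT A := by
  have ha : ∀ a b c d, join (join a b) (join c d) ∈ A ↔ join (join b c) (join d a) ∈ A :=
    fun a b c d => by rw [← (h (join (join a b) (join c d))).1, join_quarter]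
  have hb : ∀ a b c, join (join a b) c ∈ A ↔ join (join b c) a ∈ A :=
    fun a b c => by rw [← (h (join (join a b) c)).2, join_third]
  have hs4 : ∀ a b c d, join (join a b) (join c d) ∈ A ↔ join (join c d) (join a b) ∈ A :=
    fun a b c d => (ha a b c d).trans (ha b c d a)
  have hs : ∀ x y, join x y ∈ A ↔ join y x ∈ A := by
    intro x y
    rw [← join_eta x, ← join_eta y]
    exact hs4 _ _ _ _
  have hr : ∀ a b c, join (join a b) c ∈ A ↔ join a (join b c) ∈ A :=
    fun a b c => (hb a b c).trans (hs (join b c) a)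
  refine ⟨⟨hr, fun a b c d => ?_⟩, hs⟩
  exact (hr (join a b) c d).trans ((ha a b c d).trans ((hs (join b c) (join d a)).trans
    ((hr d a (join b c)).trans (hs d (join a (join b c))))))

theorem InvF.r1 {A : Set (ℕ → Bool)} (h : InvF A) (a b c d : ℕ → Bool) :
    join a (join (join b c) d) ∈ A ↔ join a (join b (join c d)) ∈ A := by
  rw [← h.r a (join b c) d, ← h.r0 a b c d, h.r (join a b) c d, h.r a b (join c d)]

theorem InvF.left {A : Set (ℕ → Bool)} (h : InvF A) (y : ℕ → Bool) :
    InvF {x | join x y ∈ A} where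
  r a b c := h.r0 a b c y
  r0 a b c d := by
    change join (join (join (join a b) c) d) y ∈ A ↔ join (join (join a (join b c)) d) y ∈ A
    rw [h.r, h.r0, ← h.r]

theorem InvF.right {A : Set (ℕ → Bool)} (h : InvF A) (y : ℕ → Bool) :
    InvF {x | join y x ∈ A} where
  r a b c := h.r1 y a b c
  r0 a b c d := by
    change join y (join (join (join a b) c) d) ∈ A ↔ join y (join (join a (join b c)) d) ∈ A
    rw [h.r1 y (join a b) c d, h.r1 y a b (join c d), h.r1 y a (join b c) d,
      ← h.r y a (join (join b c) d), h.r1 (join y a) b c d, h.r y a (join b (join c d))]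

/-- Equality up to moving brackets. -/
inductive Eqv : (ℕ → Bool) → (ℕ → Bool) → Prop
  | refl (x : ℕ → Bool) : Eqv x x
  | symm {x y : ℕ → Bool} : Eqv x y → Eqv y x
  | trans {x y z : ℕ → Bool} : Eqv x y → Eqv y z → Eqv x z
  | rot (a b c : ℕ → Bool) : Eqv (join (join a b) c) (join a (join b c))
  | left {x y : ℕ → Bool} (b : ℕ → Bool) : Eqv x y → Eqv (join x b) (join y b)
  | right {x y : ℕ → Bool} (b : ℕ → Bool) : Eqv x y → Eqv (join b x) (join b y)

theorem InvF.mem_iff {x y : ℕ → Bool} (h : Eqv x y) :
    ∀ {A : Set (ℕ → Bool)}, InvF A → (x ∈ A ↔ y ∈ A) := by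
  induction h with
  | refl x => intro A _; exact Iff.rfl
  | symm _ ih => intro A hA; exact (ih hA).symm
  | trans _ _ ih1 ih2 => intro A hA; exact (ih1 hA).trans (ih2 hA)
  | rot a b c => intro A hA; exact hA.r a b c
  | left b _ ih => intro A hA; exact ih (hA.left b)
  | right b _ ih => intro A hA; exact ih (hA.right b)

/-- The number whose binary expansion consists of `e` ones (the lowest digits) and the digits
of `m`. -/
def up (e m : ℕ) : ℕ := (fun x => 2 * x + 1)^[e] m

theorem up_zero (m : ℕ) : up 0 m = m := rfl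

theorem up_succ (e m : ℕ) : up (e + 1) m = 2 * up e m + 1 := by
  rw [up, Function.iterate_succ_apply']
  rfl

theorem primrec_up : Primrec₂ up := by
  refine Primrec.nat_iterate (f := fun x : ℕ × ℕ => x.1) (g := fun x => x.2)
    (h := fun _ y => 2 * y + 1) Primrec.fst Primrec.snd
    (Primrec.succ.comp (Primrec.nat_mul.comp (Primrec.const 2) Primrec.snd))

theorem le_up (e m : ℕ) : m ≤ up e m := by
  induction e with
  | zero => rw [up_zero]
  | succ e ih => rw [up_succ]; omega

theorem up_lt {e j m : ℕ} (h : j < m) : up e j < up e m := by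
  induction e with
  | zero => rw [up_zero, up_zero]; exact h
  | succ e ih => rw [up_succ, up_succ]; omega

theorem up_le {e j m : ℕ} (h : j ≤ m) : up e j ≤ up e m := by
  rcases Nat.eq_or_lt_of_le h with rfl | h
  · exact le_rfl
  · exact (up_lt h).le

theorem ones_even (m : ℕ) : ones (2 * m) = 0 := by
  rw [ones, if_neg (by omega)]

theorem ones_odd (m : ℕ) : ones (2 * m + 1) = ones m + 1 := by
  rw [ones, if_pos (by omega)]
  congr 2
  omega

theorem ones_up (e m : ℕ) : ones (up e (2 * m)) = e := by
  induction e with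
  | zero => rw [up_zero, ones_even]
  | succ e ih => rw [up_succ, ones_odd, ih]

theorem up_inj {e m m' : ℕ} (h : up e m = up e m') : m = m' := by
  rcases lt_trichotomy m m' with h2 | h2 | h2
  · exact absurd h (up_lt h2).ne
  · exact h2
  · exact absurd h (up_lt h2).ne'

theorem cone_inj {e e' m m' : ℕ} (h : up e (2 * m) = up e' (2 * m')) : e = e' ∧ m = m' := by
  have h1 : e = e' := by rw [← ones_up e m, h, ones_up]
  subst h1
  have := up_inj h
  exact ⟨rfl, by omega⟩

/-- The powers of two. -/
def pw (e : ℕ) : ℕ := (fun x => 2 * x)^[e] 1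

theorem pw_succ (e : ℕ) : pw (e + 1) = 2 * pw e := by
  rw [pw, Function.iterate_succ_apply']
  rfl

theorem pw_pos (e : ℕ) : 0 < pw e := by
  induction e with
  | zero => exact Nat.one_pos
  | succ e ih => rw [pw_succ]; omega

theorem primrec_pw : Primrec pw := by
  refine Primrec.nat_iterate (f := fun x : ℕ => x) (g := fun _ => 1)
    (h := fun _ y => 2 * y) Primrec.id (Primrec.const 1)
    (Primrec.nat_mul.comp (Primrec.const 2) Primrec.snd)

/-- The position in `x` of the bit number `i` of the sequence obtained from `x` by replacing the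
part at `e` ones by its even half. -/
def cpos (e i : ℕ) : ℕ :=
  if (i + 1) % pw e = 0 then pw e * (2 * ((i + 1) / pw e) - 1) - 1 else i

theorem cpos_zero (i : ℕ) : cpos 0 i = 2 * i := by
  have : pw 0 = 1 := rfl
  simp only [cpos, this, Nat.mod_one, if_true, Nat.div_one]
  omega

theorem cpos_even (e j : ℕ) : cpos (e + 1) (2 * j) = 2 * j := by
  rw [cpos, if_neg]
  rw [pw_succ]
  intro h
  have h1 : 2 * pw e ∣ 2 * j + 1 := Nat.dvd_of_mod_eq_zero h
  have h2 : 2 ∣ 2 * j + 1 := (Nat.dvd_mul_right 2 _).trans h1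
  omega

theorem cpos_odd (e j : ℕ) : cpos (e + 1) (2 * j + 1) = 2 * cpos e j + 1 := by
  have h1 : 2 * j + 1 + 1 = 2 * (j + 1) := by ring
  have h2 := pw_pos e
  rw [cpos, cpos, pw_succ, h1, Nat.mul_mod_mul_left, Nat.mul_div_mul_left _ _ (by omega)]
  by_cases h3 : (j + 1) % pw e = 0
  · rw [if_pos (by omega), if_pos h3]
    have h4 : 0 < (j + 1) / pw e := Nat.div_pos (Nat.le_of_dvd (by omega)
      (Nat.dvd_of_mod_eq_zero h3)) h2
    have h5 : 0 < pw e * (2 * ((j + 1) / pw e) - 1) := Nat.mul_pos h2 (by omega)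
    rw [Nat.mul_assoc]
    omega
  · rw [if_neg (by omega), if_neg h3]
    

theorem cpos_le (e i : ℕ) : cpos e i ≤ up e (2 * i) := by
  induction e generalizing i with
  | zero => rw [cpos_zero, up_zero]
  | succ e ih =>
    rcases Nat.even_or_odd' i with ⟨k, rfl | rfl⟩
    · rw [cpos_even]
      have := le_up (e + 1) (2 * (2 * k))
      omega
    · rw [cpos_odd, up_succ]
      have h1 := ih k
      have h2 : up e (2 * k) ≤ up e (2 * (2 * k + 1)) := up_le (by omega)
      omega

theorem primrec_cpos : Primrec₂ cpos := by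
  have hp : Primrec fun x : ℕ × ℕ => pw x.1 := primrec_pw.comp Primrec.fst
  have hi : Primrec fun x : ℕ × ℕ => x.2 + 1 := Primrec.succ.comp Primrec.snd
  refine Primrec.ite (c := fun x : ℕ × ℕ => (x.2 + 1) % pw x.1 = 0) ?_ ?_ Primrec.snd
  · exact Primrec.eq.comp (Primrec.nat_mod.comp hi hp) (Primrec.const 0)
  · exact Primrec.nat_sub.comp (Primrec.nat_mul.comp hp (Primrec.nat_sub.comp
      (Primrec.nat_mul.comp (Primrec.const 2) (Primrec.nat_div.comp hi hp)) (Primrec.const 1)))
      (Primrec.const 1)

/-- Absorption: the part of `x` after `e` ones and a zero repeats `x` there, `w` and itself. -/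
def Abs (x : ℕ → Bool) (e : ℕ) (w : ℕ → Bool) : Prop :=
  ∀ m, x (up e (2 * (2 * m))) = x (up e m) ∧ x (up e (2 * (2 * (2 * m) + 1))) = w m ∧
    x (up e (2 * (2 * (2 * m + 1) + 1))) = x (cpos e m)

theorem eqv_cut (x : ℕ → Bool) (e : ℕ) :
    Eqv x (join (fun i => x (cpos e i)) fun m => x (up e (2 * m + 1))) := by
  induction e generalizing x with
  | zero =>
    have h : join (fun i => x (cpos 0 i)) (fun m => x (up 0 (2 * m + 1))) = x := by
      simp only [cpos_zero, up_zero]
      exact join_eta x
    rw [h]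
    exact Eqv.refl x
  | succ e ih =>
    have h1 : (fun i => x (cpos (e + 1) i)) =
        join (fun m => x (2 * m)) fun i => x (2 * cpos e i + 1) :=
      join_ext (fun m => by rw [cpos_even]) fun m => by rw [cpos_odd]
    have h2 : Eqv x (join (fun m => x (2 * m)) fun m => x (2 * m + 1)) := by
      rw [join_eta]
      exact Eqv.refl x
    simp only [up_succ]
    rw [h1]
    exact h2.trans ((Eqv.right _ (ih fun m => x (2 * m + 1))).trans (Eqv.rot _ _ _).symm)

theorem eqv_cut_of (x q : ℕ → Bool) (e : ℕ)
    (h : (fun m => x (up e (2 * m))) = join (fun m => x (up e m)) q) :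
    Eqv (fun i => x (cpos e i)) (join x q) := by
  induction e generalizing x with
  | zero =>
    have h1 : (fun i => x (cpos 0 i)) = join x q := by
      simp only [cpos_zero]
      exact h
    rw [h1]
    exact Eqv.refl _
  | succ e ih =>
    have h1 : (fun i => x (cpos (e + 1) i)) =
        join (fun m => x (2 * m)) fun i => x (2 * cpos e i + 1) :=
      join_ext (fun m => by rw [cpos_even]) fun m => by rw [cpos_odd]
    have h2 : Eqv (join (join (fun m => x (2 * m)) fun m => x (2 * m + 1)) q) (join x q) := by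
      rw [join_eta]
      exact Eqv.refl _
    rw [h1]
    refine (Eqv.right _ (ih (fun m => x (2 * m + 1)) ?_)).trans ((Eqv.rot _ _ _).symm.trans h2)
    simp only [up_succ] at h
    exact h

theorem Abs.eqv {x w : ℕ → Bool} {e : ℕ} (h : Abs x e w) : Eqv x (join (join x w) x) := by
  have h1 : (fun m => x (up e (2 * m))) =
      join (fun m => x (up e m)) (join w fun i => x (cpos e i)) := by
    refine join_ext (fun m => (h m).1) fun n => ?_
    rcases Nat.even_or_odd' n with ⟨k, rfl | rfl⟩
    · rw [jE]
      exact (h k).2.1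
    · rw [jO]
      exact (h k).2.2
  have h2 := eqv_cut_of x _ e h1
  have h3 := eqv_cut x e
  generalize hC : (fun i => x (cpos e i)) = C at h2 h3
  generalize hR : (fun m => x (up e (2 * m + 1))) = R at h3
  have h4 : Eqv x (join (join x (join w C)) R) := h3.trans (h2.left R)
  have h5 : Eqv (join (join x (join w C)) R) (join x (join w (join C R))) :=
    (Eqv.rot _ _ _).trans (Eqv.right x (Eqv.rot _ _ _))
  exact h4.trans (h5.trans ((Eqv.right x (Eqv.right w h3.symm)).trans (Eqv.rot _ _ _).symm))

/-- The consequences of absorption which are used. -/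
theorem InvT.absorb {A : Set (ℕ → Bool)} (hA : InvT A) {x w : ℕ → Bool}
    (h : Eqv x (join (join x x) x)) (h' : Eqv x (join (join x (join w x)) x)) :
    join w x ∈ A ↔ x ∈ A := by
  have h1 : Eqv (join w x) (join (join (join w x) x) x) :=
    (Eqv.right w h).trans ((Eqv.rot _ _ _).symm.trans ((Eqv.rot _ _ _).symm.left x))
  have h2 : Eqv x (join x (join (join w x) x)) := h'.trans (Eqv.rot _ _ _)
  rw [InvF.mem_iff h1 hA.toInvF, hA.s, ← InvF.mem_iff h2 hA.toInvF]

theorem InvF.compl {A : Set (ℕ → Bool)} (h : InvF A) : InvF Aᶜ where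
  r a b c := not_congr (h.r a b c)
  r0 a b c d := not_congr (h.r0 a b c d)

theorem InvT.compl {A : Set (ℕ → Bool)} (h : InvT A) : InvT Aᶜ where
  toInvF := h.toInvF.compl
  s a b := not_congr (h.s a b)

end Pool.Agent.Y588.TC
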