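import Pool.Agent.Y588.TC.Rel

set_option autoImplicit false

namespace Pool.Agent.Y588.TC

open Encodable
open Nat.Partrec (Code)
open Pool.Agent.Helper227 Pool.Agent.H685R3

/-- The program with index `ones n` halts on the input consisting of `n`, `w` and `ρ`. -/
def Run (n : ℕ) (w ρ : List Bool) : Prop :=
  ((Denumerable.ofNat Code (ones n)).eval (encode (n, w, ρ))).Dom

theorem answers_eq (u : ℕ → Bool) (n : ℕ) : answers u n = pre (adaptiveJump u) n := by
  induction n with
  | zero => rfl
  | succ n ih =>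
    rw [pre_succ, ← ih]
    rfl

theorem aj_iff {u : ℕ → Bool} {n : ℕ} : adaptiveJump u n = true ↔
    ∃ k, Run n (pre (adaptiveJump u) n) (pre u k) := by
  rw [← answers_eq]
  simp only [adaptiveJump, decide_eq_true_eq]
  rfl

theorem primrec_cone : Primrec₂ fun e m => up e (2 * m) :=
  primrec_up.comp Primrec.fst (Primrec.nat_mul.comp (Primrec.const 2) Primrec.snd)

theorem exists_cone (n : ℕ) : ∃ e m, n = up e (2 * m) := by
  induction n using Nat.strong_induction_on with
  | _ n ih =>
    rcases Nat.even_or_odd' n with ⟨k, rfl | rfl⟩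
    · exact ⟨0, k, by rw [up_zero]⟩
    · obtain ⟨e, m, h⟩ := ih k (by omega)
      exact ⟨e + 1, m, by rw [up_succ, ← h]⟩

theorem s1_Run : S1 fun x : (ℕ × List Bool) × List Bool => Run x.1.1 x.1.2 x.2 := by
  have h : S1 fun x : (ℕ × List Bool) × List Bool => ∃ a : ℕ × ℕ, x.1.1 = up a.1 (2 * a.2) ∧
      ((Denumerable.ofNat Code a.1).eval (encode (x.1.1, x.1.2, x.2))).Dom := by
    refine S1.ex (p := fun (x : (ℕ × List Bool) × List Bool) (a : ℕ × ℕ) =>
      x.1.1 = up a.1 (2 * a.2) ∧
      ((Denumerable.ofNat Code a.1).eval (encode (x.1.1, x.1.2, x.2))).Dom)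
      (S1.and (S1.of_prim ?_) ?_)
    · exact Primrec.eq.comp (Primrec.fst.comp (Primrec.fst.comp Primrec.fst))
        (primrec_cone.comp (Primrec.fst.comp Primrec.snd) (Primrec.snd.comp Primrec.snd))
    · exact S1.comp (f := fun y : ((ℕ × List Bool) × List Bool) × (ℕ × ℕ) =>
        (Denumerable.ofNat Code y.2.1, encode (y.1.1.1, y.1.1.2, y.1.2))) s1_eval
        (((Primrec.ofNat Code).comp (Primrec.fst.comp Primrec.snd)).pair
          (Primrec.encode.comp ((Primrec.fst.comp (Primrec.fst.comp Primrec.fst)).pair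
            ((Primrec.snd.comp (Primrec.fst.comp Primrec.fst)).pair
              (Primrec.snd.comp Primrec.fst)))))
  refine h.of_eq fun x => ?_
  constructor
  · rintro ⟨⟨e, m⟩, h1, h2⟩
    simp only at h1 h2
    unfold Run
    have h3 : ones x.1.1 = e := by rw [h1, ones_up]
    rw [h3]
    exact h2
  · intro h1
    obtain ⟨e, m, h2⟩ := exists_cone x.1.1
    refine ⟨(e, m), h2, ?_⟩
    have h3 : ones x.1.1 = e := by rw [h2, ones_up]
    unfold Run at h1
    rw [h3] at h1
    exact h1

theorem exists_dom {F : ℕ → Prop} (hF : S1 F) : ∃ c : Code, ∀ m, (c.eval m).Dom ↔ F m := by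
  obtain ⟨c, hc⟩ := Nat.Partrec.Code.exists_code.1 hF.re
  refine ⟨c, fun m => ?_⟩
  rw [hc]
  simp [Part.assert]

/-- Every property which is Sigma-one in the oracle is decided by a part of the adaptive jump. -/
theorem exists_section {u : ℕ → Bool} {P : (ℕ × ℕ) × List Bool → Prop} (hP : SI u P) :
    ∃ e, ∀ m, adaptiveJump u (up e (2 * m)) = true ↔
      P ((e, m), pre (adaptiveJump u) (up e (2 * m))) := by
  obtain ⟨E, hE, mE, eE⟩ := hP
  have h1 : S1 fun c : ℕ => ∃ a : ℕ × ℕ, ∃ w : List Bool, ∃ ρ : List Bool,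
      c = encode (up a.1 (2 * a.2), w, ρ) ∧ E (ρ, (a, w)) := by
    refine S1.ex (S1.ex (S1.ex (S1.and (S1.of_prim ?_) (hE.comp ?_))))
    · refine Primrec.eq.comp (Primrec.fst.comp (Primrec.fst.comp Primrec.fst))
        (Primrec.encode.comp (Primrec.pair ?_ ((Primrec.snd.comp Primrec.fst).pair Primrec.snd)))
      exact primrec_cone.comp
        (Primrec.fst.comp (Primrec.snd.comp (Primrec.fst.comp Primrec.fst)))
        (Primrec.snd.comp (Primrec.snd.comp (Primrec.fst.comp Primrec.fst)))
    · exact Primrec.snd.pair ((Primrec.snd.comp (Primrec.fst.comp Primrec.fst)).pair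
        (Primrec.snd.comp Primrec.fst))
  obtain ⟨c, hc⟩ := exists_dom h1
  refine ⟨encode c, fun m => ?_⟩
  generalize he : encode c = e
  rw [aj_iff, eE]
  refine exists_congr fun k => ?_
  unfold Run
  rw [ones_up, ← he, Denumerable.ofNat_encode, he, hc]
  constructor
  · rintro ⟨⟨e', m'⟩, w, ρ, h3, h6⟩
    have h4 := encode_injective h3
    simp only [Prod.mk.injEq] at h4
    obtain ⟨h3, h4, h5⟩ := h4
    obtain ⟨rfl, rfl⟩ := cone_inj h3
    subst h4 h5
    exact h6
  · intro h3
    exact ⟨(e, m), _, _, rfl, h3⟩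

/-- The bits of `w` can be computed along `x`, relative to `u`. -/
def Sect (u x w : ℕ → Bool) : Prop :=
  ∃ P : (ℕ × List Bool) × List Bool → Prop, SI u P ∧
    ∀ m N, m < N → (P ((m, pre w m), pre x N) ↔ w m = true)

theorem Sect.self (u x : ℕ → Bool) : Sect u x x := by
  refine ⟨fun y => y.2.getD y.1.1 false = true, SI.of_prim ?_, fun m N h => ?_⟩
  · exact Primrec.eq.comp ((Primrec.list_getD false).comp Primrec.snd
      (Primrec.fst.comp Primrec.fst)) (Primrec.const true)
  · simp only
    rw [pre_getD _ _ _ _ h]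

theorem Sect.join {u x w : ℕ → Bool} (h : Sect u x w) : Sect u x (join w x) := by
  obtain ⟨P, hP, h⟩ := h
  have hm : PrimrecPred fun y : (ℕ × List Bool) × List Bool => y.1.1 % 2 = 0 :=
    Primrec.eq.comp (Primrec.nat_mod.comp (Primrec.fst.comp Primrec.fst) (Primrec.const 2))
      (Primrec.const 0)
  have hd : Primrec fun y : (ℕ × List Bool) × List Bool => y.1.1 / 2 :=
    Primrec.nat_div.comp (Primrec.fst.comp Primrec.fst) (Primrec.const 2)
  refine ⟨fun y => (y.1.1 % 2 = 0 ∧ P ((y.1.1 / 2,
    (List.range (y.1.1 / 2)).map fun j => y.1.2.getD (2 * j) false), y.2)) ∨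
    (¬ y.1.1 % 2 = 0 ∧ y.2.getD (y.1.1 / 2) false = true), ?_, fun m N hN => ?_⟩
  · refine SI.or (SI.and (SI.of_prim hm) ?_) (SI.and (SI.of_prim hm.not) (SI.of_prim ?_))
    · refine hP.comp (f := fun y : (ℕ × List Bool) × List Bool => ((y.1.1 / 2,
        (List.range (y.1.1 / 2)).map fun j => y.1.2.getD (2 * j) false), y.2)) ?_
      refine Primrec.pair (Primrec.pair hd (Primrec.list_map (Primrec.list_range.comp hd) ?_))
        Primrec.snd
      exact (Primrec.list_getD false).comp (Primrec.snd.comp (Primrec.fst.comp Primrec.fst))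
        (Primrec.nat_mul.comp (Primrec.const 2) Primrec.snd)
    · exact Primrec.eq.comp ((Primrec.list_getD false).comp Primrec.snd hd) (Primrec.const true)
  · rcases Nat.even_or_odd' m with ⟨k, rfl | rfl⟩
    · have h1 : 2 * k / 2 = k := by omega
      have h2 : 2 * k % 2 = 0 := by omega
      have h3 : ((List.range k).map fun j =>
          (pre (Pool.Agent.Helper227.join w x) (2 * k)).getD (2 * j) false) = pre w k := by
        refine List.map_congr_left fun j hj => ?_
        rw [List.mem_range] at hj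
        rw [pre_getD _ _ _ _ (by omega), jE]
      simp only [h1, h2, h3]
      rw [jE, ← h k N (by omega)]
      simp
    · have h1 : (2 * k + 1) / 2 = k := by omega
      have h2 : (2 * k + 1) % 2 = 1 := by omega
      simp only [h1, h2]
      rw [jO, pre_getD _ _ _ _ (by omega)]
      simp

theorem Sect.abs {u w : ℕ → Bool} (h : Sect u (adaptiveJump u) w) :
    ∃ e, Abs (adaptiveJump u) e w := by
  obtain ⟨P, hP, h⟩ := h
  have h1 : SI u fun x : (ℕ × ℕ) × List Bool =>
      (x.1.2 % 2 = 0 ∧ (¬ x.1.2 = 0 ∧ x.2.getD (up x.1.1 (x.1.2 / 2)) false = true)) ∨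
      (¬ x.1.2 % 2 = 0 ∧ ((x.1.2 % 4 = 1 ∧ P ((x.1.2 / 4, (List.range (x.1.2 / 4)).map fun j =>
        x.2.getD (up x.1.1 (2 * (2 * (2 * j) + 1))) false), x.2)) ∨
      (¬ x.1.2 % 4 = 1 ∧ x.2.getD (cpos x.1.1 (x.1.2 / 4)) false = true))) := by
    have he : Primrec fun x : (ℕ × ℕ) × List Bool => x.1.1 := Primrec.fst.comp Primrec.fst
    have hm : Primrec fun x : (ℕ × ℕ) × List Bool => x.1.2 := Primrec.snd.comp Primrec.fst
    have h0 : PrimrecPred fun x : (ℕ × ℕ) × List Bool => x.1.2 % 2 = 0 :=
      Primrec.eq.comp (Primrec.nat_mod.comp hm (Primrec.const 2)) (Primrec.const 0)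
    have h1 : PrimrecPred fun x : (ℕ × ℕ) × List Bool => x.1.2 = 0 :=
      Primrec.eq.comp hm (Primrec.const 0)
    have h2 : PrimrecPred fun x : (ℕ × ℕ) × List Bool => x.1.2 % 4 = 1 :=
      Primrec.eq.comp (Primrec.nat_mod.comp hm (Primrec.const 4)) (Primrec.const 1)
    have h3 : Primrec fun x : (ℕ × ℕ) × List Bool => x.1.2 / 2 :=
      Primrec.nat_div.comp hm (Primrec.const 2)
    have h4 : Primrec fun x : (ℕ × ℕ) × List Bool => x.1.2 / 4 :=
      Primrec.nat_div.comp hm (Primrec.const 4)
    refine SI.or (SI.and (SI.of_prim h0) (SI.and (SI.of_prim h1.not) (SI.of_prim ?_)))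
      (SI.and (SI.of_prim h0.not) (SI.or (SI.and (SI.of_prim h2) ?_)
        (SI.and (SI.of_prim h2.not) (SI.of_prim ?_))))
    · exact Primrec.eq.comp ((Primrec.list_getD false).comp Primrec.snd (primrec_up.comp he h3))
        (Primrec.const true)
    · refine hP.comp (f := fun x : (ℕ × ℕ) × List Bool => ((x.1.2 / 4,
        (List.range (x.1.2 / 4)).map fun j =>
        x.2.getD (up x.1.1 (2 * (2 * (2 * j) + 1))) false), x.2)) ?_
      refine Primrec.pair (Primrec.pair h4 (Primrec.list_map (Primrec.list_range.comp h4) ?_))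
        Primrec.snd
      have h5 : Primrec fun x : ((ℕ × ℕ) × List Bool) × ℕ => 2 * (2 * x.2) + 1 :=
        Primrec.succ.comp (Primrec.nat_mul.comp (Primrec.const 2)
          (Primrec.nat_mul.comp (Primrec.const 2) Primrec.snd))
      exact (Primrec.list_getD false).comp (Primrec.snd.comp Primrec.fst)
        (primrec_cone.comp (he.comp Primrec.fst) h5)
    · exact Primrec.eq.comp ((Primrec.list_getD false).comp Primrec.snd
        (primrec_cpos.comp he h4)) (Primrec.const true)
  obtain ⟨e, h2⟩ := exists_section h1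
  have c1 : ∀ m, adaptiveJump u (up e (2 * (2 * m))) = adaptiveJump u (up e m) := by
    intro m
    rcases Nat.eq_zero_or_pos m with rfl | hm
    · rfl
    · have h3 := h2 (2 * m)
      have h4 : 2 * m / 2 = m := by omega
      have h5 : 2 * m % 2 = 0 := by omega
      have h6 : ¬ 2 * m = 0 := by omega
      simp only [h4, h5, h6] at h3
      rw [pre_getD _ _ _ _ (up_lt (by omega))] at h3
      simp only [not_false_eq_true, not_true_eq_false, true_and, false_and, or_false] at h3
      exact Bool.eq_iff_iff.2 h3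
  have c2 : ∀ m, adaptiveJump u (up e (2 * (2 * (2 * m) + 1))) = w m := by
    intro m
    induction m using Nat.strong_induction_on with
    | _ m ih =>
      have h3 := h2 (2 * (2 * m) + 1)
      have h4 : (2 * (2 * m) + 1) / 4 = m := by omega
      have h5 : (2 * (2 * m) + 1) % 4 = 1 := by omega
      have h6 : (2 * (2 * m) + 1) % 2 = 1 := by omega
      have h7 : ((List.range m).map fun j => (pre (adaptiveJump u)
          (up e (2 * (2 * (2 * m) + 1)))).getD (up e (2 * (2 * (2 * j) + 1))) false) =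
          pre w m := by
        refine List.map_congr_left fun j hj => ?_
        rw [List.mem_range] at hj
        rw [pre_getD _ _ _ _ (up_lt (by omega)), ih j hj]
      have h8 : m < up e (2 * (2 * (2 * m) + 1)) := by
        have := le_up e (2 * (2 * (2 * m) + 1))
        omega
      simp only [h4, h5, h6, h7] at h3
      rw [h m _ h8] at h3
      simp only [one_ne_zero, not_false_eq_true, not_true_eq_false, true_and, false_and,
        or_false, false_or] at h3
      exact Bool.eq_iff_iff.2 h3
  have c3 : ∀ m, adaptiveJump u (up e (2 * (2 * (2 * m + 1) + 1))) =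
      adaptiveJump u (cpos e m) := by
    intro m
    have h3 := h2 (2 * (2 * m + 1) + 1)
    have h4 : (2 * (2 * m + 1) + 1) / 4 = m := by omega
    have h5 : ¬ (2 * (2 * m + 1) + 1) % 4 = 1 := by omega
    have h6 : (2 * (2 * m + 1) + 1) % 2 = 1 := by omega
    simp only [h4, h5, h6] at h3
    rw [pre_getD _ _ _ _ ((cpos_le e m).trans_lt (up_lt (by omega)))] at h3
    simp only [one_ne_zero, not_false_eq_true, true_and, false_and, false_or] at h3
    exact Bool.eq_iff_iff.2 h3
  exact ⟨e, fun m => ⟨c1 m, c2 m, c3 m⟩⟩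

theorem Sect.absorb {A : Set (ℕ → Bool)} (hA : InvT A) {u w : ℕ → Bool}
    (h : Sect u (adaptiveJump u) w) :
    Pool.Agent.Helper227.join w (adaptiveJump u) ∈ A ↔ adaptiveJump u ∈ A := by
  obtain ⟨e, he⟩ := (Sect.self u (adaptiveJump u)).abs
  obtain ⟨e', he'⟩ := h.join.abs
  exact hA.absorb he.eqv he'.eqv

theorem sect_of_tLe {u v : ℕ → Bool} (h : TLe v u) :
    Sect u (adaptiveJump u) (adaptiveJump v) := by
  have hv := tLe_iff_SI.1 h
  refine ⟨fun x => ∃ τ : List Bool, Run x.1.1 x.1.2 τ ∧
    ∀ i < τ.length, v i = τ.getD i false, ?_, fun m N hN => ?_⟩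
  · refine SI.ex (p := fun (x : (ℕ × List Bool) × List Bool) (τ : List Bool) =>
      Run x.1.1 x.1.2 τ ∧ ∀ i < τ.length, v i = τ.getD i false) (SI.and (SI.of_s1 ?_) ?_)
    · exact s1_Run.comp (f := fun y : ((ℕ × List Bool) × List Bool) × List Bool =>
        (y.1.1, y.2)) ((Primrec.fst.comp Primrec.fst).pair Primrec.snd)
    · refine SI.all_lt (α := ((ℕ × List Bool) × List Bool) × List Bool)
        (p := fun x i => v i = x.2.getD i false) (f := fun x => x.2.length) ?_
        (Primrec.list_length.comp Primrec.snd)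
      exact hv.comp (f := fun z : (((ℕ × List Bool) × List Bool) × List Bool) × ℕ =>
        (z.2, z.1.2.getD z.2 false))
        (Primrec.snd.pair ((Primrec.list_getD false).comp (Primrec.snd.comp Primrec.fst)
          Primrec.snd))
  · simp only
    rw [aj_iff]
    constructor
    · rintro ⟨τ, h2, h3⟩
      refine ⟨τ.length, ?_⟩
      have h4 : pre v τ.length = τ := by
        refine List.ext_getElem (by simp) fun i h5 h6 => ?_
        rw [getElem_pre, h3 i h6]
        exact List.getD_eq_getElem _ _ h6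
      rw [h4]
      exact h2
    · rintro ⟨k, hk⟩
      refine ⟨pre v k, hk, fun i hi => ?_⟩
      rw [pre_getD _ _ _ _ (by simpa using hi)]

/-- The preimage under the adaptive jump is Turing invariant. -/
theorem turingInvariant_aj {A : Set (ℕ → Bool)} (hA : InvT A) :
    TuringInvariant {u | adaptiveJump u ∈ A} := by
  intro u v h h' hx
  have h1 := (sect_of_tLe h').absorb hA
  have h2 := (sect_of_tLe h).absorb hA
  have hx : adaptiveJump u ∈ A := hx
  change adaptiveJump v ∈ A
  rwa [← h2, hA.s, h1]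

end Pool.Agent.Y588.TC
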